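import Mathlib

namespace Pool.Agent.Results.MP_3b52ff_co.Q1

open Classical

/-- The pair chosen at turn `n` by the Seeker strategy `σ` (a function of the previous answers)
when Hider answers `h 0, h 1, …` (`true` is green, `false` is red). -/
def q (σ : List Bool → Sym2 ℕ) (h : ℕ → Bool) (n : ℕ) : Sym2 ℕ :=
  σ (List.ofFn fun i : Fin n => h i)

/-- The chosen pairs are pairs of distinct vertices that are still white. -/
def Legal (σ : List Bool → Sym2 ℕ) (h : ℕ → Bool) : Prop :=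
  (∀ n, ¬ (q σ h n).IsDiag) ∧ Function.Injective (q σ h)

def Green (σ : List Bool → Sym2 ℕ) (h : ℕ → Bool) : Set (Sym2 ℕ) :=
  {e | ∃ n, h n = true ∧ q σ h n = e}

def White (σ : List Bool → Sym2 ℕ) (h : ℕ → Bool) : Set (Sym2 ℕ) :=
  {e | ¬ e.IsDiag ∧ ∀ n, q σ h n ≠ e}

def SeekerWins (S : Set (Set (Sym2 ℕ))) (σ : List Bool → Sym2 ℕ) (h : ℕ → Bool) : Prop :=
  (White σ h).Nonempty ∧
    ((∀ H, Green σ h ⊆ H → H ⊆ Green σ h ∪ White σ h → H ∈ S) ∨
      ∀ H, Green σ h ⊆ H → H ⊆ Green σ h ∪ White σ h → H ∉ S)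

/-- Seeker has no winning strategy. -/
def InftyElusive (S : Set (Set (Sym2 ℕ))) : Prop :=
  ¬ ∃ σ : List Bool → Sym2 ℕ, ∀ h, Legal σ h ∧ SeekerWins S σ h

/-- The property that every vertex has degree at least `k`. -/
def D (k : ℕ) : Set (Set (Sym2 ℕ)) := {H | ∀ v, (k : ℕ∞) ≤ {u | s(u, v) ∈ H}.encard}

def Gs (σ : List Bool → Sym2 ℕ) (h : ℕ → Bool) (n y : ℕ) : Set ℕ :=
  {u | ∃ i < n, h i = true ∧ q σ h i = s(u, y)}

def S (σ : List Bool → Sym2 ℕ) (h : ℕ → Bool) (n y : ℕ) : Set ℕ :=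
  Gs σ h n y ∪ {u | u < y ∧ ∀ i < n, q σ h i ≠ s(u, y)}

def F (k : ℕ) (σ : List Bool → Sym2 ℕ) (h : ℕ → Bool) (n : ℕ) : Prop :=
  ∃ y t, q σ h n = s(y, Nat.pair y t + 1) ∧ (S σ h n y).encard < k

noncomputable def hid (k : ℕ) (σ : List Bool → Sym2 ℕ) (n : ℕ) : Bool :=
  decide (F k σ (fun i => if _ : i < n then hid k σ i else false) n)

lemma hid_spec (k : ℕ) (σ : List Bool → Sym2 ℕ) (n : ℕ) :
    hid k σ n = true ↔ F k σ (hid k σ) n := by
  rw [hid, decide_eq_true_iff]
  set h' : ℕ → Bool := fun i => if _ : i < n then hid k σ i else false with hh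
  have e1 : ∀ i < n, h' i = hid k σ i := fun i hi => by simp [hh, hi]
  have e2 : ∀ i ≤ n, q σ h' i = q σ (hid k σ) i := fun i hi => by
    unfold q; congr 2; funext j; exact e1 j (by omega)
  have e3 : ∀ y, S σ h' n y = S σ (hid k σ) n y := fun y => by
    ext u
    simp only [S, Gs, Set.mem_union, Set.mem_ofPred_eq]
    refine or_congr (exists_congr fun i => and_congr_right fun hi => ?_)
      (and_congr_right fun _ => forall_congr' fun i => forall_congr' fun hi => ?_)
    · rw [e1 i hi, e2 i hi.le]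
    · rw [e2 i hi.le]
  simp only [F, e2 n le_rfl, e3]

lemma inv {k : ℕ} {σ : List Bool → Sym2 ℕ} {h : ℕ → Bool} (hs : ∀ n, h n = true ↔ F k σ h n)
    (hi : Function.Injective (q σ h)) (c : ℕ) :
    ∀ n, Gs σ h n c ⊆ {(c - 1).unpair.1} ∨ (S σ h n c).encard ≤ k
  | 0 => Or.inl fun u ⟨i, h, _⟩ => absurd h (by omega)
  | n + 1 => by
    have sub : ∀ u ∈ S σ h (n + 1) c, u ∈ S σ h n c ∨ (h n = true ∧ q σ h n = s(u, c)) := by
      rintro u (⟨i, h1, h2⟩ | ⟨h1, h2⟩)
      · rcases Nat.lt_succ_iff_lt_or_eq.1 h1 with h3 | rfl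
        exacts [Or.inl (Or.inl ⟨i, h3, h2⟩), Or.inr h2]
      · exact Or.inl (Or.inr ⟨h1, fun i hi => h2 i (by omega)⟩)
    by_cases hact : ∃ t, q σ h n = s(c, Nat.pair c t + 1) ∧ (S σ h n c).encard < k
    · obtain ⟨t, h1, h2⟩ := hact
      right
      refine le_trans (Set.encard_le_encard (t := insert (Nat.pair c t + 1) (S σ h n c)) ?_)
        ((Set.encard_insert_le _ _).trans (Order.add_one_le_of_lt h2))
      intro u hu
      rcases sub u hu with h3 | ⟨_, h3⟩
      · exact Or.inr h3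
      · rw [h1, Sym2.eq_iff] at h3
        have := Nat.left_le_pair c t
        left; omega
    · have pas : ∀ u, h n = true → q σ h n = s(u, c) → u < c ∧ u = (c - 1).unpair.1 := by
        intro u h1 h2
        obtain ⟨y, t, h3, h4⟩ := (hs n).1 h1
        have h5 := h3
        rw [h2, Sym2.eq_iff] at h5
        rcases h5 with ⟨rfl, rfl⟩ | ⟨_, rfl⟩
        · exact ⟨Nat.lt_succ_of_le (Nat.left_le_pair _ _), by simp⟩
        · exact absurd ⟨t, h3, h4⟩ hact
      rcases inv hs hi c n with ih | ih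
      · left
        rintro u ⟨i, h1, h2⟩
        rcases Nat.lt_succ_iff_lt_or_eq.1 h1 with h3 | rfl
        exacts [ih ⟨i, h3, h2⟩, (pas u h2.1 h2.2).2]
      · right
        refine le_trans (Set.encard_le_encard fun u hu => ?_) ih
        rcases sub u hu with h3 | ⟨h3, h4⟩
        · exact h3
        · exact Or.inr ⟨(pas u h3 h4).1, fun i hi' e => absurd (hi (e.trans h4.symm)) hi'.ne⟩

theorem result (k : ℕ) (hk : 2 ≤ k) : InftyElusive (D k) := by
  rintro ⟨σ, hσ⟩
  obtain ⟨⟨_, hi⟩, ⟨e, he⟩, hw⟩ := hσ (hid k σ)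
  have hs := hid_spec k σ
  generalize hid k σ = h at *
  rcases hw with hw | hw
  · obtain ⟨j, c, hjc, rfl⟩ : ∃ j c, j < c ∧ e = s(j, c) := by
      induction e using Sym2.ind with | _ a b => ?_
      have : a ≠ b := fun e => he.1 (by simp [e])
      rcases lt_or_gt_of_ne this with h | h
      exacts [⟨a, b, h, rfl⟩, ⟨b, a, h, Sym2.eq_swap⟩]
    obtain ⟨t, ht, hc⟩ := Set.exists_subset_encard_eq (hw _ subset_rfl Set.subset_union_left c)
    have tf : t.Finite := Set.finite_of_encard_eq_coe hc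
    have ht' : ∀ u ∈ t, ∃ n, h n = true ∧ q σ h n = s(u, c) := fun u hu => ht hu
    choose! f hf using ht'
    obtain ⟨n, hn⟩ := (tf.image f).bddAbove
    have tG : t ⊆ Gs σ h (n + 1) c := fun u hu =>
      ⟨f u, Nat.lt_succ_of_le (hn ⟨u, hu, rfl⟩), hf u hu⟩
    rcases inv hs hi c (n + 1) with h1 | h1
    · have := Set.encard_le_encard (tG.trans h1)
      rw [hc, Set.encard_singleton] at this
      norm_cast at this
      omega
    · have h2 : insert j t ⊆ S σ h (n + 1) c :=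
        Set.insert_subset (Or.inr ⟨hjc, fun i _ => he.2 i⟩) (tG.trans Set.subset_union_left)
      have := (Set.encard_le_encard h2).trans h1
      rw [Set.encard_insert_of_notMem (fun hj => he.2 _ (hf j hj).2), hc] at this
      norm_cast at this
      omega
  · apply hw _ Set.subset_union_left subset_rfl
    intro y
    by_contra hlt
    rw [not_le] at hlt
    have Uf := Set.finite_of_encard_le_coe hlt.le
    obtain ⟨T, hT⟩ : ∃ T, ∀ j < y, ∀ i, q σ h i = s(j, y) → i < T := by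
      have : {i | ∃ j < y, q σ h i = s(j, y)}.Finite := by
        refine Set.Finite.of_finite_image (f := q σ h) ?_ hi.injOn
        refine ((Set.finite_lt_nat y).image fun j => s(j, y)).subset ?_
        rintro _ ⟨i, ⟨j, h1, h2⟩, rfl⟩
        exact ⟨j, h1, h2.symm⟩
      obtain ⟨T, hT⟩ := this.bddAbove
      exact ⟨T + 1, fun j hj i e => Nat.lt_succ_of_le (hT ⟨j, hj, e⟩)⟩
    have fin2 : {c | ∃ i < T, q σ h i = s(c, y)}.Finite := by
      refine Set.Finite.of_finite_image (f := fun c => s(c, y)) ?_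
        (fun a _ b _ e => Sym2.congr_left.1 e)
      refine ((Set.finite_lt_nat T).image (q σ h)).subset ?_
      rintro _ ⟨c, ⟨i, h1, h2⟩, rfl⟩
      exact ⟨i, h1, h2⟩
    refine Set.infinite_of_injective_forall_mem (f := fun t => Nat.pair y t + 1)
      (fun a b e => by simpa using e) (fun t => ?_) (Uf.union fin2)
    have hy := Nat.left_le_pair y t
    by_cases hw' : ∃ n, q σ h n = s(Nat.pair y t + 1, y)
    · obtain ⟨n, hn⟩ := hw'
      by_cases hnT : n < T
      · exact Or.inr ⟨n, hnT, hn⟩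
      · refine Or.inl (Or.inl ⟨n, (hs n).2 ⟨y, t, hn.trans Sym2.eq_swap,
          lt_of_le_of_lt (Set.encard_le_encard ?_) hlt⟩, hn⟩)
        rintro u (⟨i, _, h1⟩ | ⟨h1, h2⟩)
        · exact Or.inl ⟨i, h1⟩
        · exact Or.inr ⟨by simp; omega, fun i e => h2 i (by have := hT u h1 i e; omega) e⟩
    · exact Or.inl (Or.inr ⟨by simp; omega, fun n e => hw' ⟨n, e⟩⟩)

end Pool.Agent.Results.MP_3b52ff_co.Q1
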